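import Mathlib

open Polynomial Finset

namespace Pool.Agent.H.MP_d6eb29_al

variable {R S : Type*} [CommRing R] [CommRing S]

/-- cyclic shift matrix -/
def PM (R : Type*) [CommRing R] (N : ℕ) : Matrix (Fin N) (Fin N) R :=
  Matrix.of fun i j => if j.val = (i.val + 1) % N then 1 else 0

lemma PM_pow (N m : ℕ) (i j : Fin N) :
    (PM R N ^ m) i j = if j.val = (i.val + m) % N then 1 else 0 := by
  induction m generalizing j with
  | zero =>
    rw [pow_zero, Matrix.one_apply, add_zero, Nat.mod_eq_of_lt i.2]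
    simp [Fin.ext_iff, eq_comm]
  | succ m ih =>
    rw [pow_succ, Matrix.mul_apply,
      Finset.sum_eq_single (⟨(i.val + m) % N, Nat.mod_lt _ (Fin.pos i)⟩ : Fin N)]
    · rw [ih, if_pos rfl, one_mul]
      simp only [PM, Matrix.of_apply, Nat.mod_add_mod, add_assoc]
    · intro b _ hb
      rw [ih, if_neg (fun h => hb (Fin.ext h)), zero_mul]
    · simp

lemma PM_pow_self (N : ℕ) : PM R N ^ N = 1 := by
  ext i j
  rw [PM_pow, Matrix.one_apply, Nat.add_mod_right, Nat.mod_eq_of_lt i.2]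
  simp [Fin.ext_iff, eq_comm]

/-- circulant determinant of a polynomial -/
noncomputable def DD (N : ℕ) (f : R[X]) : R := (aeval (PM R N) f).det

lemma DD_mul (N : ℕ) (f g : R[X]) : DD N (f * g) = DD N f * DD N g := by
  simp [DD, Matrix.det_mul]

lemma DD_one (N : ℕ) : DD N (1 : R[X]) = 1 := by simp [DD]

lemma DD_prod {ι : Type*} (N : ℕ) (s : Finset ι) (f : ι → R[X]) :
    DD N (∏ i ∈ s, f i) = ∏ i ∈ s, DD N (f i) := by
  classical
  induction s using Finset.induction_on with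
  | empty => simp [DD_one]
  | insert a s ha ih => rw [Finset.prod_insert ha, Finset.prod_insert ha, DD_mul, ih]

lemma aeval_congr (N : ℕ) {f g : R[X]} (h : (X ^ N - 1 : R[X]) ∣ f - g) :
    aeval (PM R N) f = aeval (PM R N) g := by
  obtain ⟨c, hc⟩ := h
  rw [← sub_eq_zero, ← map_sub, hc, map_mul, map_sub, map_pow, aeval_X, PM_pow_self, map_one,
    sub_self, zero_mul]

lemma DD_congr (N : ℕ) {f g : R[X]} (h : (X ^ N - 1 : R[X]) ∣ f - g) : DD N f = DD N g := by
  rw [DD, DD, aeval_congr N h]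

lemma DD_map (φ : R →+* S) (N : ℕ) (f : R[X]) : DD N (f.map φ) = φ (DD N f) := by
  rw [DD, DD, RingHom.map_det]
  congr 1
  have h1 : φ.mapMatrix (PM R N) = PM S N := by
    ext i j
    simp only [PM, RingHom.mapMatrix_apply, Matrix.map_apply, Matrix.of_apply]
    split_ifs <;> simp
  rw [← h1]
  symm
  apply Polynomial.map_aeval_eq_aeval_map
  ext r i j
  simp [Matrix.algebraMap_eq_diagonal, Matrix.diagonal_apply]
  split_ifs <;> simp

lemma DD_complex {N : ℕ} {ω : ℂ} (hω : IsPrimitiveRoot ω N) (f : ℂ[X]) :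
    DD N f = ∏ j ∈ range N, f.eval (ω ^ j) := by
  let F : Matrix (Fin N) (Fin N) ℂ := (Matrix.vandermonde fun j : Fin N => ω ^ j.val).transpose
  have hF : F.det ≠ 0 := by
    rw [Matrix.det_transpose, Matrix.det_vandermonde_ne_zero_iff]
    intro a b h
    exact Fin.ext (hω.pow_inj a.2 b.2 h)
  have key : ∀ f : ℂ[X], aeval (PM ℂ N) f * F =
      F * Matrix.diagonal fun j : Fin N => f.eval (ω ^ j.val) := by
    intro f
    induction f using Polynomial.induction_on' with
    | add p q hp hq =>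
      rw [map_add, add_mul, hp, hq, ← mul_add, Matrix.diagonal_add]
      simp
    | monomial m a =>
      rw [aeval_monomial, Algebra.algebraMap_eq_smul_one, smul_mul_assoc, one_mul, smul_mul_assoc]
      ext i j
      rw [Matrix.smul_apply, Matrix.mul_diagonal, Matrix.mul_apply,
        Finset.sum_eq_single (⟨(i.val + m) % N, Nat.mod_lt _ (Fin.pos i)⟩ : Fin N)]
      · rw [PM_pow, if_pos rfl, one_mul]
        simp only [F, Matrix.transpose_apply, Matrix.vandermonde_apply, eval_monomial, smul_eq_mul]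
        have h1 : (ω ^ j.val) ^ N = 1 := by rw [← pow_mul, mul_comm, pow_mul, hω.pow_eq_one, one_pow]
        rw [← pow_eq_pow_mod _ h1, pow_add]; ring
      · intro b _ hb
        rw [PM_pow, if_neg (fun h => hb (Fin.ext h)), zero_mul]
      · simp
  have h2 := congrArg Matrix.det (key f)
  rw [Matrix.det_mul, Matrix.det_mul, Matrix.det_diagonal, mul_comm F.det] at h2
  rw [DD, mul_right_cancel₀ hF h2]
  exact Fin.prod_univ_eq_prod_range (fun j => f.eval (ω ^ j)) N

lemma DD_univ {N : ℕ} (hN : 0 < N) (f : ℤ[X][X]) (G : ℤ[X])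
    (h : ∀ (ω : ℂ) (φ : ℤ[X] →+* ℂ), IsPrimitiveRoot ω N →
      ∏ j ∈ range N, (f.map φ).eval (ω ^ j) = φ G) : DD N f = G := by
  apply Polynomial.map_injective (Int.castRingHom ℂ) (RingHom.injective_int _)
  apply Polynomial.funext
  intro z
  have hω := Complex.isPrimitiveRoot_exp N hN.ne'
  have h1 := h _ (eval₂RingHom (Int.castRingHom ℂ) z) hω
  rw [← DD_complex hω, DD_map] at h1
  rw [eval_map, eval_map]
  exact h1

lemma spec (t : R) : ∃ φ : ℤ[X] →+* R, φ X = t :=
  ⟨eval₂RingHom (Int.castRingHom R) t, by simp⟩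

lemma DD_X_add_C {N : ℕ} (hN : 0 < N) (t : R) : DD N (X + C t) = t ^ N - (-1) ^ N := by
  have h : DD N (X + C (X : ℤ[X])) = X ^ N - (-1) ^ N := by
    apply DD_univ hN
    intro ω φ hω
    have h1 := congrArg (eval (φ X)) (X_pow_sub_C_eq_prod hω hN (rfl : (-1 : ℂ) ^ N = _))
    simp only [eval_sub, eval_pow, eval_X, eval_C, eval_prod] at h1
    simp [h1, add_comm]
  obtain ⟨φ, rfl⟩ := spec t
  have h2 := DD_map φ N (X + C X)
  rw [h] at h2
  simpa using h2

lemma prod_periodic (g : ℕ → ℂ) (r : ℕ) (hg : ∀ j, g (r + j) = g j) (M : ℕ) :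
    ∏ j ∈ range (r * M), g j = (∏ j ∈ range r, g j) ^ M := by
  have h : ∀ M j, g (r * M + j) = g j := by
    intro M
    induction M with
    | zero => simp
    | succ M ih => intro j; rw [Nat.mul_succ, add_comm (r * M), add_assoc, hg, ih]
  induction M with
  | zero => simp
  | succ M ih =>
    rw [Nat.mul_succ, Finset.prod_range_add, ih, pow_succ]
    simp [h]

lemma prod_geom {r M : ℕ} (hr : 0 < r) (hM : 0 < M) {ω : ℂ} (hω : IsPrimitiveRoot ω (r * M))
    (α β : ℂ) : ∏ j ∈ range (r * M), (α + β * ∑ l ∈ range r, ((ω ^ j) ^ M) ^ l) =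
      ((α + r * β) * α ^ (r - 1)) ^ M := by
  have hη : IsPrimitiveRoot (ω ^ M) r := hω.pow (by positivity) (mul_comm r M)
  have e1 : ∀ j, (ω ^ j) ^ M = (ω ^ M) ^ j := fun j => by rw [← pow_mul, ← pow_mul, mul_comm]
  simp only [e1]
  rw [prod_periodic _ r (fun j => by rw [pow_add, hη.pow_eq_one, one_mul])]
  congr 1
  obtain ⟨s, rfl⟩ : ∃ s, r = s + 1 := ⟨r - 1, by omega⟩
  rw [Finset.prod_range_succ', mul_comm]
  congr 1
  · simp [mul_comm]
  · rw [Finset.prod_congr rfl (g := fun _ => α)]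
    · simp
    · intro j hj
      have h1 : (ω ^ M) ^ (j + 1) ≠ 1 :=
        hη.pow_ne_one_of_pos_of_lt (by omega) (by simpa using hj)
      have h2 := mul_geom_sum ((ω ^ M) ^ (j + 1)) (s + 1)
      rw [← pow_mul (ω ^ M) (j + 1), mul_comm (j + 1), pow_mul (ω ^ M) (s + 1), hη.pow_eq_one,
        one_pow, sub_self] at h2
      rw [(mul_eq_zero.1 h2).resolve_left (sub_ne_zero.2 h1)]; simp

/-- first family -/
noncomputable def f1 (p M : ℕ) (c : R) : R[X] :=
  C (1 + p * c) + C (-c) * ∑ l ∈ range p, (X ^ M) ^ l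

lemma f1_map (φ : R →+* S) (p M : ℕ) (c : R) : (f1 p M c).map φ = f1 p M (φ c) := by
  simp [f1, Polynomial.map_sum]

lemma f1_dvd (p M : ℕ) (c : R) : (X ^ M - 1 : R[X]) ∣ f1 p M c - 1 := by
  have e1 : f1 p M c - 1 = C (-c) * ∑ l ∈ range p, ((X ^ M) ^ l - 1 ^ l) := by
    simp [f1, Finset.sum_sub_distrib]; ring
  rw [e1]
  exact Dvd.dvd.mul_left (Finset.dvd_sum fun l _ => sub_dvd_pow_sub_pow _ _ l) _

lemma DD_f1 {p M : ℕ} (hp : 0 < p) (hM : 0 < M) (c : R) :
    DD (p * M) (f1 p M c) = ((1 + p * c) ^ (p - 1)) ^ M := by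
  have h : DD (p * M) (f1 p M (X : ℤ[X])) = ((1 + (p : ℤ[X]) * X) ^ (p - 1)) ^ M := by
    apply DD_univ (by positivity)
    intro ω φ hω
    have h1 := prod_geom hp hM hω (1 + p * φ X) (-φ X)
    simp only [f1_map]
    simp only [f1, eval_add, eval_C, eval_mul, eval_finsetSum, eval_pow, eval_X]
    rw [h1]
    simp
  obtain ⟨φ, rfl⟩ := spec c
  have h2 := DD_map φ (p * M) (f1 p M X)
  rw [h, f1_map] at h2
  simpa using h2

/-- second family -/
noncomputable def f2 (M : ℕ) (c : R) : R[X] := 1 + C c * (X ^ M * (1 - (X ^ M) ^ 2))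

lemma f2_map (φ : R →+* S) (M : ℕ) (c : R) : (f2 M c).map φ = f2 M (φ c) := by
  simp [f2]

lemma f2_dvd (M : ℕ) (c : R) : (X ^ (2 * M) - 1 : R[X]) ∣ f2 M c - 1 :=
  ⟨-(C c * X ^ M), by rw [f2]; ring⟩

lemma DD_f2 {M : ℕ} (hM : 0 < M) (c : R) : DD (4 * M) (f2 M c) = (1 + 4 * c ^ 2) ^ M := by
  have h : DD (4 * M) (f2 M (X : ℤ[X])) = (1 + 4 * X ^ 2) ^ M := by
    apply DD_univ (by positivity)
    intro ω φ hω
    have hη : IsPrimitiveRoot (ω ^ M) 4 := hω.pow (by positivity) (mul_comm 4 M)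
    have h2 : (ω ^ M) ^ 2 = -1 :=
      (hη.pow (by norm_num) (by norm_num : 4 = 2 * 2)).eq_neg_one_of_two_right
    have e1 : ∀ j, (ω ^ j) ^ M = (ω ^ M) ^ j := fun j => by rw [← pow_mul, ← pow_mul, mul_comm]
    simp only [f2_map]
    simp only [f2, eval_add, eval_C, eval_mul, eval_pow, eval_X, eval_one, eval_sub, e1]
    rw [prod_periodic _ 4 (fun j => by rw [pow_add, hη.pow_eq_one, one_mul])]
    simp only [map_pow, map_add, map_one, map_mul, map_ofNat]
    congr 1
    generalize ω ^ M = η at h2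
    simp only [Finset.prod_range_succ, Finset.prod_range_zero]
    have h3 : η ^ 3 = -η := by rw [pow_succ, h2]; ring
    rw [h2, h3]
    have h4 : (-η) ^ 2 = -1 := by rw [neg_sq, h2]
    simp only [pow_zero, pow_one, h4, h2]
    linear_combination (-4 * φ X ^ 2) * h2
  obtain ⟨φ, rfl⟩ := spec c
  have h2 := DD_map φ (4 * M) (f2 M X)
  rw [h, f2_map] at h2
  simpa [map_ofNat] using h2

/-- third family -/
noncomputable def f3 (r : ℕ) (c : R) : R[X] := C 1 + C c * ∑ l ∈ range r, (X ^ 1) ^ l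

lemma f3_map (φ : R →+* S) (r : ℕ) (c : R) : (f3 r c).map φ = f3 r (φ c) := by
  simp [f3, Polynomial.map_sum]

lemma DD_f3 {r : ℕ} (hr : 0 < r) (c : R) : DD r (f3 r c) = 1 + r * c := by
  have h : DD r (f3 r (X : ℤ[X])) = 1 + (r : ℤ[X]) * X := by
    apply DD_univ hr
    intro ω φ hω
    have h1 := prod_geom hr one_pos (ω := ω) (by rwa [mul_one]) 1 (φ X)
    rw [mul_one] at h1
    simp only [f3_map]
    simp only [f3, eval_add, eval_C, eval_mul, eval_finsetSum, eval_pow, eval_X]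
    rw [h1]
    simp
  obtain ⟨φ, rfl⟩ := spec c
  have h2 := DD_map φ r (f3 r X)
  rw [h, f3_map] at h2
  simpa using h2

end Pool.Agent.H.MP_d6eb29_al
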