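import Mathlib
import Pool.Agent.H.MP_d6eb29_al.Det

open Polynomial Finset

namespace Pool.Agent.H.MP_d6eb29_al

variable {R S : Type*} [CommRing R] [CommRing S]

/-- ghost components -/
def gh (p : ℕ) (y : ℕ → R) (j : ℕ) : R := ∑ l ∈ range (j + 1), (p : R) ^ l * y l ^ p ^ (j - l)

lemma gh_map (φ : R →+* S) (p : ℕ) (y : ℕ → R) (j : ℕ) :
    φ (gh p y j) = gh p (fun l => φ (y l)) j := by
  simp [gh]

lemma ghost_eq (p : ℕ) [Fact p.Prime] (x : WittVector p R) (j : ℕ) :
    WittVector.ghostComponent j x = gh p x.coeff j := by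
  rw [WittVector.ghostComponent_apply, aeval_wittPolynomial]; rfl

lemma gh_succ (p : ℕ) (y : ℕ → R) (j : ℕ) :
    gh p y (j + 1) = y 0 ^ p ^ (j + 1) + p * gh p (fun l => y (l + 1)) j := by
  rw [gh, Finset.sum_range_succ', gh, Finset.mul_sum, add_comm]
  congr 1
  · simp
  · refine Finset.sum_congr rfl fun l _ => ?_
    rw [Nat.add_sub_add_right]; ring

lemma gh_zero (p : ℕ) (y : ℕ → R) : gh p y 0 = y 0 := by simp [gh]

/-- universal monic polynomial -/
noncomputable def FA (m : ℕ) : (MvPolynomial (Fin m) ℤ)[X] :=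
  ∑ k ∈ range (m + 1), monomial k
    (if h : k < m then MvPolynomial.X (⟨m - 1 - k, by omega⟩ : Fin m) else 1)

lemma coeff_FA (m k : ℕ) : (FA m).coeff k =
    if h : k < m then MvPolynomial.X (⟨m - 1 - k, by omega⟩ : Fin m)
      else if k = m then 1 else 0 := by
  rw [FA, finsetSum_coeff]
  simp only [coeff_monomial]
  rw [Finset.sum_ite_eq' (range (m + 1)) k]
  by_cases h : k < m
  · simp [h, h.le]
  · by_cases h2 : k = m
    · simp [h2]
    · rw [if_neg (by simp; omega), dif_neg h, if_neg h2]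

theorem witt_FA (p : ℕ) [Fact p.Prime] (m n' : ℕ) (hn : 0 < n') :
    ∃ y : ℕ → MvPolynomial (Fin m) ℤ, ∀ j, DD (p ^ j * n') (FA m) = gh p y j := by
  have hp : 0 < p := (Fact.out : p.Prime).pos
  let ι : MvPolynomial (Fin m) ℤ →+* MvPolynomial (Fin m) ℤ :=
    ((MvPolynomial.symmetricSubalgebra (Fin m) ℤ).val.comp
      (MvPolynomial.esymmAlgHom (Fin m) ℤ m)).toRingHom
  have hι : Function.Injective ι := Subtype.val_injective.comp
    (MvPolynomial.esymmAlgHom_injective ℤ (by simp))
  have hX : ∀ i : Fin m, ι (MvPolynomial.X i) = MvPolynomial.esymm (Fin m) ℤ (i + 1) := by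
    intro i
    simp [ι, MvPolynomial.esymmAlgHom]
  have hF : (FA m).map ι = ∏ i : Fin m, (X + C (MvPolynomial.X i)) := by
    ext1 k
    rw [coeff_map, coeff_FA]
    by_cases h : k ≤ m
    · rw [MvPolynomial.prod_X_add_C_coeff ℤ (Fin m) k (by simpa using h), Fintype.card_fin]
      split_ifs with h1 h2
      · rw [hX]; congr 1; simp; omega
      · simp [h2]
      · omega
    · rw [dif_neg (by omega), if_neg (by omega), map_zero, coeff_eq_zero_of_natDegree_lt]
      refine lt_of_le_of_lt (natDegree_prod_le _ _) ?_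
      simp; omega
  let z : WittVector p (MvPolynomial (Fin m) ℤ) :=
    ∏ i : Fin m, (WittVector.teichmuller p (MvPolynomial.X i ^ n') -
      WittVector.teichmuller p ((-1) ^ n'))
  have hz : ∀ l, ∃ a, ι a = z.coeff l := by
    intro l
    have hs : (z.coeff l).IsSymmetric := by
      intro e
      have h1 : WittVector.map (MvPolynomial.rename e : MvPolynomial (Fin m) ℤ →ₐ[ℤ] _).toRingHom z
          = z := by
        simp only [z, map_prod, map_sub, WittVector.map_teichmuller]
        rw [← Equiv.prod_comp e (fun i => (WittVector.teichmuller p (MvPolynomial.X i ^ n') -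
          WittVector.teichmuller p ((-1) ^ n') : WittVector p (MvPolynomial (Fin m) ℤ)))]
        simp
      exact congrArg (fun w => w.coeff l) h1
    obtain ⟨a, ha⟩ := MvPolynomial.esymmAlgHom_surjective ℤ (σ := Fin m) (n := m) (by simp)
      ⟨z.coeff l, hs⟩
    exact ⟨a, congrArg Subtype.val ha⟩
  choose y hy using hz
  refine ⟨y, fun j => hι ?_⟩
  rw [← DD_map, hF, DD_prod, gh_map]
  simp only [hy]
  rw [← ghost_eq]
  simp only [z, map_prod, map_sub, WittVector.ghostComponent_teichmuller]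
  refine Finset.prod_congr rfl fun i _ => ?_
  rw [DD_X_add_C (by positivity), ← pow_mul, ← pow_mul, mul_comm n']

theorem witt_monic (p : ℕ) [Fact p.Prime] (n' : ℕ) (hn : 0 < n') (f : R[X]) (hf : f.Monic) :
    ∃ y : ℕ → R, ∀ j, DD (p ^ j * n') f = gh p y j := by
  obtain ⟨y, hy⟩ := witt_FA p f.natDegree n' hn
  let ψ : MvPolynomial (Fin f.natDegree) ℤ →+* R :=
    MvPolynomial.eval₂Hom (Int.castRingHom R) fun i => f.coeff (f.natDegree - 1 - i)
  have h : (FA f.natDegree).map ψ = f := by
    ext k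
    rw [coeff_map, coeff_FA]
    split_ifs with h1 h2
    · simp only [ψ, MvPolynomial.eval₂Hom_X']
      congr 1; omega
    · rw [map_one, h2]; exact hf.coeff_natDegree.symm
    · rw [map_zero, coeff_eq_zero_of_natDegree_lt (by omega)]
  refine ⟨fun l => ψ (y l), fun j => ?_⟩
  rw [← gh_map, ← hy, ← DD_map, h]

theorem witt_all (p : ℕ) [Fact p.Prime] (n' : ℕ) (hn : 0 < n') (k : ℕ) (f : R[X]) :
    ∃ y : ℕ → R, ∀ j ≤ k, DD (p ^ j * n') f = gh p y j := by
  have hp : 0 < p := (Fact.out : p.Prime).pos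
  nontriviality R
  have hN : 0 < p ^ k * n' := by positivity
  have h1 : (X ^ (f.natDegree + 1) * (X ^ (p ^ k * n') - 1) : R[X]).Monic :=
    (monic_X_pow _).mul (by simpa using monic_X_pow_sub_C (1 : R) hN.ne')
  have h2 : (X ^ (f.natDegree + 1) * (X ^ (p ^ k * n') - 1) + f : R[X]).Monic := by
    apply h1.add_of_left
    apply degree_lt_degree
    rw [(monic_X_pow _).natDegree_mul (by simpa using monic_X_pow_sub_C (1 : R) hN.ne'),
      natDegree_X_pow]
    omega
  obtain ⟨y, hy⟩ := witt_monic p n' hn _ h2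
  refine ⟨y, fun j hj => ?_⟩
  rw [← hy]
  symm
  apply DD_congr
  rw [add_sub_cancel_right]
  apply Dvd.dvd.mul_left
  obtain ⟨d, rfl⟩ := Nat.exists_eq_add_of_le hj
  have : p ^ (j + d) * n' = (p ^ j * n') * p ^ d := by ring
  rw [this, pow_mul X (p ^ j * n')]
  simpa using sub_dvd_pow_sub_pow (X ^ (p ^ j * n') : R[X]) 1 (p ^ d)

lemma gh_split [IsDomain R] [CharZero R] (p : ℕ) (hp : 0 < p) (y : ℕ → R) (i : ℕ)
    (h : ∀ j ≤ i, gh p y j = 1) (j : ℕ) :
    gh p y (i + 1 + j) = 1 + p ^ (i + 1) * gh p (fun l => y (l + (i + 1))) j := by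
  have h0 : y 0 = 1 := by rw [← gh_zero p y]; exact h 0 (Nat.zero_le _)
  have h1 : ∀ l, l < i → y (l + 1) = 0 := by
    intro l
    induction l using Nat.strong_induction_on with
    | _ l ih =>
      intro hl
      have h2 := h (l + 1) hl
      rw [gh, Finset.sum_range_succ, Finset.sum_range_succ', Finset.sum_eq_zero, h0] at h2
      · simpa [hp.ne'] using h2
      · intro a ha
        rw [ih a (by simpa using ha) (by simp at ha; omega), zero_pow (by positivity), mul_zero]
  have e1 : i + 1 + j + 1 = (i + 1) + (j + 1) := by ring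
  rw [gh, e1, Finset.sum_range_add, Finset.sum_range_succ', Finset.sum_eq_zero, h0, gh,
    Finset.mul_sum]
  · congr 1
    · simp
    · refine Finset.sum_congr rfl fun l _ => ?_
      rw [Nat.add_sub_add_left, add_comm l]; ring
  · intro a ha
    rw [h1 a (by simpa using ha), zero_pow (by positivity), mul_zero]

end Pool.Agent.H.MP_d6eb29_al
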