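import Mathlib
import Pool.Agent.H.MP_d6eb29_al.Witt

open Polynomial Finset

namespace Pool.Agent.H.MP_d6eb29_al

variable {R : Type*} [CommRing R]

/-- image of the ghost map -/
noncomputable def AA (R : Type*) [CommRing R] (p : ℕ) [Fact p.Prime] (j : ℕ) : Subring R :=
  (WittVector.ghostComponent (p := p) (R := R) j).range

section
variable (p : ℕ) [hp : Fact p.Prime]

lemma mem_AA (j : ℕ) (a : R) : a ∈ AA R p j ↔ ∃ y : ℕ → R, gh p y j = a := by
  constructor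
  · rintro ⟨x, rfl⟩; exact ⟨x.coeff, (ghost_eq p x j).symm⟩
  · rintro ⟨y, rfl⟩; exact ⟨WittVector.mk p y, ghost_eq p _ j⟩

lemma AA_zero (a : R) : a ∈ AA R p 0 := (mem_AA p 0 a).2 ⟨fun _ => a, gh_zero p _⟩

lemma AA_pred (j : ℕ) : AA R p j ≤ AA R p (j - 1) := by
  cases j with
  | zero => exact le_rfl
  | succ j =>
    rintro _ ⟨x, rfl⟩
    exact ⟨WittVector.frobenius x, WittVector.ghostComponent_frobenius j x⟩

lemma pow_mul_mem (j : ℕ) (s : R) : (p : R) ^ j * s ∈ AA R p j := by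
  induction j with
  | zero => exact AA_zero p _
  | succ j ih =>
    obtain ⟨y, hy⟩ := (mem_AA p j _).1 ih
    refine (mem_AA p _ _).2 ⟨fun l => Nat.casesOn l 0 y, ?_⟩
    rw [gh_succ]
    simp only [Nat.rec_zero]
    rw [hy, zero_pow (pow_ne_zero _ hp.out.ne_zero)]; ring

lemma gh_decomp (y : ℕ → R) (x r : R) (h : y 0 = x + p * r) (j : ℕ) :
    ∃ b ∈ AA R p (j - 1), gh p y j = x ^ p ^ j + p * b := by
  cases j with
  | zero => exact ⟨r, AA_zero p r, by rw [gh_zero, h]; simp⟩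
  | succ j =>
    obtain ⟨s, hs⟩ := dvd_sub_pow_of_dvd_sub (p := p) (a := x + p * r) (b := x) ⟨r, by ring⟩ (j + 1)
    refine ⟨p ^ j * (p * s) + gh p (fun l => y (l + 1)) j,
      add_mem (pow_mul_mem p j _) ((mem_AA p j _).2 ⟨_, rfl⟩), ?_⟩
    rw [gh_succ, h]
    linear_combination hs

omit hp in
lemma binom (a : R) (t : ℕ) : ∃ r, (1 + a) ^ t = 1 + t * a + a ^ 2 * r := by
  induction t with
  | zero => exact ⟨0, by simp⟩
  | succ t ih =>
    obtain ⟨r, hr⟩ := ih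
    exact ⟨t + r + a * r, by rw [pow_succ, hr]; push_cast; ring⟩

lemma pw (s : ℕ) (hs : p = 2 → 1 ≤ s) (w : R) (m t : ℕ) :
    ∃ r, (1 + p ^ (s + 1) * w) ^ (p ^ m * t) = 1 + p ^ (m + s + 1) * (t * w + p * r) := by
  have h1 : (p : R) * p ^ (s + 1) * p ∣ (p ^ (s + 1)) ^ p := by
    rw [← pow_succ', ← pow_succ, ← pow_mul]
    apply pow_dvd_pow
    have h2 := hp.out.two_le
    rcases Nat.eq_or_lt_of_le h2 with h | h
    · have := hs h.symm
      rw [← h]; omega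
    · nlinarith
  obtain ⟨y, hy⟩ := ZMod.exists_one_add_mul_pow_prime_pow_eq (u := (p : R) ^ (s + 1)) (v := p)
    hp.out (dvd_pow_self _ (by omega)) h1 w m
  obtain ⟨r, hr⟩ := binom ((p : R) ^ m * p ^ (s + 1) * (w + p * y)) t
  refine ⟨t * y + p ^ (m + s) * (w + p * y) ^ 2 * r, ?_⟩
  rw [pow_mul, hy, hr]; ring

lemma cop_pred (n' : ℕ) (hc : Nat.Coprime n' p) : Nat.Coprime (n' * (p - 1)) p :=
  Nat.Coprime.mul_left hc ((Nat.coprime_self_sub_left hp.out.one_le).2 (by simp))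

lemma DD_f1' (n' : ℕ) (hn : 0 < n') (i s : ℕ) (hs : p = 2 → 1 ≤ s) (c : R) :
    ∃ r, DD (p ^ (i + 1) * n') (f1 p (p ^ i * n') (p ^ s * c)) =
      1 + (p : R) ^ (i + s + 1) * ((n' * (p - 1) : ℕ) * c + p * r) := by
  have hp0 := hp.out.pos
  obtain ⟨r, hr⟩ := pw p s hs c i (n' * (p - 1))
  refine ⟨r, ?_⟩
  have e1 : p ^ (i + 1) * n' = p * (p ^ i * n') := by ring
  rw [e1, DD_f1 hp0 (by positivity), ← hr, ← pow_mul]
  congr 1
  · ring
  · ring

lemma univ_level (n' : ℕ) (hn : 0 < n') (hc : Nat.Coprime n' p) (i : ℕ) :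
    ∃ (f : ℤ[X][X]) (u : ℕ) (r : ℤ[X]), Nat.Coprime u p ∧ (X ^ (p ^ i * n') - 1 ∣ f - 1) ∧
      DD (p ^ (i + 1) * n') f = 1 + (p : ℤ[X]) ^ (i + 1) * ((u : ℤ[X]) * X + (p : ℤ[X]) * r) := by
  by_cases h2 : p = 2
  · subst h2
    cases i with
    | zero =>
      obtain ⟨r, hr⟩ := binom (2 * X : ℤ[X]) n'
      refine ⟨f1 2 n' X, n', r * X ^ 2, hc, by simpa using f1_dvd 2 n' (X : ℤ[X]), ?_⟩
      rw [zero_add, pow_one, DD_f1 two_pos hn]
      push_cast
      rw [pow_one, hr]; ring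
    | succ i =>
      obtain ⟨r, hr⟩ := pw 2 1 (fun _ => le_rfl)
        (X + 2 * (X ^ 2 + 2 * X ^ 3 + 2 * X ^ 4) : ℤ[X]) i n'
      have e1 : 2 ^ (i + 1) * n' = 2 * (2 ^ i * n') := by ring
      have e2 : 2 ^ (i + 1 + 1) * n' = 4 * (2 ^ i * n') := by ring
      have e3 : 4 * (2 ^ i * n') = 2 * (2 * (2 ^ i * n')) := by ring
      refine ⟨f1 2 (2 * (2 ^ i * n')) X * f2 (2 ^ i * n') X, n',
        r + (n' : ℤ[X]) * (X ^ 2 + 2 * X ^ 3 + 2 * X ^ 4), hc, ?_, ?_⟩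
      · rw [e1]
        have e4 : ∀ a b : ℤ[X][X], a * b - 1 = (a - 1) * b + (b - 1) := fun a b => by ring
        rw [e4]
        exact dvd_add (Dvd.dvd.mul_right (f1_dvd _ _ _) _) (f2_dvd _ _)
      · rw [DD_mul, e2, DD_f2 (by positivity), e3, DD_f1 two_pos (by positivity), pow_mul _ 2,
          ← mul_pow]
        push_cast at hr ⊢
        have e5 : ((1 + 2 * X) ^ 1) ^ 2 * (1 + 4 * X ^ 2) =
            (1 + 2 ^ 2 * (X + 2 * (X ^ 2 + 2 * X ^ 3 + 2 * X ^ 4)) : ℤ[X]) := by ring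
        rw [e5, hr]; ring
  · obtain ⟨r, hr⟩ := DD_f1' p n' hn i 0 (fun h => absurd h h2) (X : ℤ[X])
    exact ⟨_, _, r, cop_pred p n' hc, f1_dvd _ _ _, hr⟩

omit hp in
lemma unit_of_coprime {e : ℕ} (he : (p : R) ^ e = 0) {u : ℕ} (hu : Nat.Coprime u p) :
    ∃ v : R, u * v = 1 := by
  have h := Nat.Coprime.cast (R := R) (Nat.Coprime.pow_right e hu)
  rw [Nat.cast_pow, he, isCoprime_zero_right] at h
  exact h.exists_right_inv

lemma key_level {e : ℕ} (he : (p : R) ^ e = 0) (n' : ℕ) (hn : 0 < n') (hc : Nat.Coprime n' p)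
    (k i : ℕ) (x : R) : ∃ f : R[X], ∃ b ∈ AA R p (k - i - 1),
      DD (p ^ (k + 1) * n') f = 1 + (p : R) ^ (i + 1) * (x ^ p ^ (k - i) + p * b) := by
  have hp0 := hp.out.pos
  rcases le_or_gt i k with h | h
  · obtain ⟨j, rfl⟩ := Nat.exists_eq_add_of_le h
    obtain ⟨f, u, r, hu, hf, hD⟩ := univ_level p n' hn hc i
    obtain ⟨y, hy⟩ := witt_all p n' hn (i + j + 1) f
    have h1 : ∀ l ≤ i, gh p y l = 1 := by
      intro l hl
      rw [← hy l (by omega), ← DD_one (p ^ l * n')]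
      apply DD_congr
      refine dvd_trans ?_ hf
      obtain ⟨d, rfl⟩ := Nat.exists_eq_add_of_le hl
      have : p ^ (l + d) * n' = (p ^ l * n') * p ^ d := by ring
      rw [this, pow_mul X (p ^ l * n')]
      simpa using sub_dvd_pow_sub_pow (X ^ (p ^ l * n') : ℤ[X][X]) 1 (p ^ d)
    have h2 := gh_split p hp0 y i h1 0
    rw [add_zero, ← hy _ (by omega), hD, gh_zero, add_right_inj] at h2
    have h3 := mul_left_cancel₀ (pow_ne_zero _ (by exact_mod_cast hp0.ne')) h2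
    have h4 := gh_split p hp0 y i h1 j
    rw [add_right_comm, ← hy _ le_rfl] at h4
    obtain ⟨v, hv⟩ := unit_of_coprime p he hu
    obtain ⟨φ, hφ⟩ := spec (v * x)
    obtain ⟨b, hb, hb2⟩ := gh_decomp p (fun l => φ (y (l + (i + 1)))) x (φ r) (by
      simp only [← h3, map_add, map_mul, map_natCast, hφ]
      rw [← mul_assoc, hv, one_mul]) j
    refine ⟨f.map φ, b, by simpa using hb, ?_⟩
    rw [DD_map, h4, map_add, map_mul, gh_map, hb2]
    simp
  · obtain ⟨s, rfl⟩ := Nat.exists_eq_add_of_lt h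
    obtain ⟨v, hv⟩ := unit_of_coprime p he (cop_pred p n' hc)
    obtain ⟨r, hr⟩ := DD_f1' p n' hn k (s + 1) (fun _ => by omega) (v * x)
    have e1 : k - (k + s + 1) = 0 := by omega
    refine ⟨f1 p (p ^ k * n') (p ^ (s + 1) * (v * x)), r, by rw [e1]; exact AA_zero p r, ?_⟩
    rw [hr, ← mul_assoc, hv, e1]
    simp [add_assoc]

omit hp in
lemma inv_mem [Finite R] (S : Subring R) {d : R} (hd : d ∈ S) (hu : IsUnit d) :
    ∃ d' ∈ S, d * d' = 1 := by
  obtain ⟨u, rfl⟩ := hu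
  obtain ⟨n, hn, h⟩ := (isOfFinOrder_of_finite u).exists_pow_eq_one
  refine ⟨(u : R) ^ (n - 1), pow_mem hd _, ?_⟩
  rw [← pow_succ', Nat.sub_add_cancel hn, ← Units.val_pow_eq_pow_val, h, Units.val_one]

lemma one_units [Finite R] {e : ℕ} (he : (p : R) ^ e = 0) (n' : ℕ) (hn : 0 < n')
    (hc : Nat.Coprime n' p) (k : ℕ) : ∀ m i : ℕ, e ≤ i + m → ∀ a ∈ AA R p (k - i),
      ∃ f : R[X], DD (p ^ (k + 1) * n') f = 1 + (p : R) ^ (i + 1) * a := by
  have hnil : IsNilpotent (p : R) := ⟨e, he⟩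
  intro m
  induction m with
  | zero =>
    intro i hi a _
    refine ⟨1, ?_⟩
    rw [DD_one, pow_eq_zero_of_le (by omega : e ≤ i + 1) he]; simp
  | succ m ih =>
    intro i hi a ha
    obtain ⟨y, rfl⟩ := (mem_AA p _ _).1 ha
    obtain ⟨b, hb, hb2⟩ := gh_decomp p y (y 0) 0 (by simp) (k - i)
    obtain ⟨f, b', hb', hf⟩ := key_level p he n' hn hc k i (y 0)
    have hx : y 0 ^ p ^ (k - i) ∈ AA R p (k - i - 1) := by
      have : y 0 ^ p ^ (k - i) = gh p y (k - i) - p * b := by rw [hb2]; ring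
      rw [this]
      exact sub_mem (AA_pred p _ ha) (mul_mem (natCast_mem _ _) hb)
    have hd : DD (p ^ (k + 1) * n') f ∈ AA R p (k - i - 1) := by
      rw [hf]
      exact add_mem (one_mem _) (mul_mem (pow_mem (natCast_mem _ _) _)
        (add_mem hx (mul_mem (natCast_mem _ _) hb')))
    have hu : IsUnit (DD (p ^ (k + 1) * n') f) := by
      rw [hf, pow_succ', mul_assoc]
      exact IsNilpotent.isUnit_one_add ((Commute.all _ _).isNilpotent_mul_right hnil)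
    obtain ⟨d', hd', hdd⟩ := inv_mem _ hd hu
    obtain ⟨g, hg⟩ := ih (i + 1) (by omega) ((b - b') * d') (mul_mem (sub_mem hb hb') hd')
    refine ⟨f * g, ?_⟩
    rw [DD_mul, hg, hb2]
    linear_combination ((p : R) ^ (i + 1 + 1) * (b - b')) * hdd + hf

theorem image_eq [Finite R] {e : ℕ} (he : (p : R) ^ e = 0) (n' : ℕ) (hn : 0 < n')
    (hc : Nat.Coprime n' p) (k : ℕ) (a : R) (ha : IsUnit a) :
    (∃ f : R[X], DD (p ^ (k + 1) * n') f = a) ↔ ∃ y : ℕ → R, gh p y (k + 1) = a := by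
  have hnil : IsNilpotent (p : R) := ⟨e, he⟩
  constructor
  · rintro ⟨f, rfl⟩
    obtain ⟨y, hy⟩ := witt_all p n' hn (k + 1) f
    exact ⟨y, (hy _ le_rfl).symm⟩
  · rintro ⟨y, rfl⟩
    obtain ⟨b, hb, hb2⟩ := gh_decomp p y (y 0) 0 (by simp) (k + 1)
    obtain ⟨v, hv⟩ := unit_of_coprime p he hc
    obtain ⟨z, hz⟩ := witt_all p n' hn (k + 1) (f3 n' (v * (y 0 - 1)))
    have h0 := hz 0 (Nat.zero_le _)
    rw [pow_zero, one_mul, DD_f3 hn, gh_zero, ← mul_assoc, hv] at h0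
    obtain ⟨b', hb', hb3⟩ := gh_decomp p z (y 0) 0 (by rw [← h0]; ring) (k + 1)
    have hd : gh p z (k + 1) ∈ AA R p k := AA_pred p (k + 1) ((mem_AA p (k + 1) _).2 ⟨z, rfl⟩)
    have hu : IsUnit (gh p z (k + 1)) := by
      have e1 : gh p z (k + 1) = gh p y (k + 1) + p * (b' - b) := by rw [hb2, hb3]; ring
      rw [e1]
      have hn2 : IsNilpotent ((p : R) * (b' - b)) := (Commute.all _ _).isNilpotent_mul_right hnil
      exact hn2.isUnit_add_left_of_commute ha (Commute.all _ _)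
    obtain ⟨d', hd', hdd⟩ := inv_mem _ hd hu
    obtain ⟨g, hg⟩ := one_units p he n' hn hc k e 0 (by omega) ((b - b') * d')
      (mul_mem (sub_mem hb hb') hd')
    refine ⟨f3 n' (v * (y 0 - 1)) * g, ?_⟩
    rw [DD_mul, hg, hz _ le_rfl, hb2]
    linear_combination ((p : R) * (b - b')) * hdd + hb3

end

end Pool.Agent.H.MP_d6eb29_al
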