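import Mathlib
import Pool.Agent.H.MP_d6eb29_al.Image

open Polynomial Finset UniqueFactorizationMonoid

namespace Pool.Agent.H.MP_d6eb29_al

variable {R S : Type*} [CommRing R] [CommRing S]

lemma card_fib {G H : Type*} [Finite G] [Finite H] (π : G → H) (s : Set H) (c : ℕ)
    (h : ∀ b ∈ s, Nat.card {g // π g = b} = c) : Nat.card {g // π g ∈ s} = c * Nat.card s := by
  have e : {g // π g ∈ s} ≃ Σ b : s, {g // π g = b} :=
    { toFun := fun g => ⟨⟨π g, g.2⟩, g, rfl⟩
      invFun := fun x => ⟨x.2.1, by rw [x.2.2]; exact x.1.2⟩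
      left_inv := fun g => rfl
      right_inv := by
        rintro ⟨⟨b, hb⟩, g, hg⟩
        simp only at hg
        subst hg
        rfl }
  have := Fintype.ofFinite s
  rw [Nat.card_congr e, Nat.card_sigma, Finset.sum_congr rfl (fun (b : s) _ => h b b.2)]
  simp [mul_comm]

lemma hom_count {G H : Type*} [AddCommGroup G] [AddCommGroup H] [Finite G] [Finite H]
    (π : G →+ H) (hπ : Function.Surjective π) (s : Set H) :
    Nat.card {g // π g ∈ s} * Nat.card H = Nat.card G * Nat.card s := by
  have h : ∀ b, Nat.card {g // π g = b} = Nat.card {g // π g = 0} := by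
    intro b
    obtain ⟨a, rfl⟩ := hπ b
    exact Nat.card_congr
      { toFun := fun g => ⟨g.1 - a, by rw [map_sub, g.2, sub_self]⟩
        invFun := fun g => ⟨g.1 + a, by rw [map_add, g.2, zero_add]⟩
        left_inv := fun g => by simp
        right_inv := fun g => by simp }
  have h1 := card_fib π s _ (fun b _ => h b)
  have h2 := card_fib π Set.univ _ (fun b _ => h b)
  simp only [Set.mem_univ, Nat.card_univ] at h2
  rw [Nat.card_congr (Equiv.subtypeUnivEquiv (fun _ => trivial) : {_g : G // True} ≃ G)] at h2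
  rw [h1, h2]; ring

section
variable {n : ℕ} [NeZero n]

/-- circulant matrix -/
def cir (v : Fin n → R) : Matrix (Fin n) (Fin n) R := Matrix.of fun i j => v (j - i)

/-- polynomial of a vector -/
noncomputable def poly (v : Fin n → R) : R[X] := ∑ l, monomial l.val (v l)

omit [CommRing R] in
lemma cir_inj : Function.Injective (cir : (Fin n → R) → _) := by
  intro v w h
  ext j
  have := congrFun (congrFun h 0) j
  simpa [cir] using this

lemma aeval_poly (v : Fin n → R) : aeval (PM R n) (poly v) = cir v := by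
  ext i j
  rw [poly, map_sum, Matrix.sum_apply, Finset.sum_eq_single (j - i)]
  · rw [aeval_monomial, Algebra.algebraMap_eq_smul_one, smul_mul_assoc, one_mul, Matrix.smul_apply,
      PM_pow, if_pos (by rw [← Fin.val_add]; simp)]
    simp [cir]
  · intro b _ hb
    rw [aeval_monomial, Algebra.algebraMap_eq_smul_one, smul_mul_assoc, one_mul, Matrix.smul_apply,
      PM_pow, if_neg, smul_zero]
    rw [← Fin.val_add, ← Fin.ext_iff]
    rintro rfl
    exact hb (by simp)
  · simp

lemma DD_poly (v : Fin n → R) : DD n (poly v) = (cir v).det := by rw [DD, aeval_poly]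

omit [NeZero n] in
lemma poly_map (φ : R →+* S) (v : Fin n → R) : (poly v).map φ = poly (fun l => φ (v l)) := by
  simp [poly, Polynomial.map_sum]

omit [NeZero n] in
lemma poly_coeff (h : R[X]) (hd : h.degree < n) : poly (fun l : Fin n => h.coeff l) = h := by
  rw [poly]
  conv_rhs => rw [← h.sum_monomial_eq]
  exact Polynomial.sum_fin (fun i a => monomial i a) (by simp) hd

lemma exists_rep (f : R[X]) : ∃ v : Fin n → R, (X ^ n - 1 : R[X]) ∣ f - poly v := by
  nontriviality R
  have hm : (X ^ n - 1 : R[X]).Monic := by simpa using monic_X_pow_sub_C (1 : R) (NeZero.ne n)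
  have hd : (X ^ n - 1 : R[X]).degree = n := by
    simpa using degree_X_pow_sub_C (NeZero.pos n) (1 : R)
  refine ⟨fun l => (f %ₘ (X ^ n - 1)).coeff l, f /ₘ (X ^ n - 1), ?_⟩
  rw [poly_coeff _ (hd ▸ degree_modByMonic_lt f hm), sub_eq_iff_eq_add']
  exact (modByMonic_add_div f _).symm

lemma fib_le [Finite R] (f : R[X]) (hf : IsUnit (DD n f)) (a : R) :
    Nat.card {v : Fin n → R // (cir v).det = a} ≤
      Nat.card {v : Fin n → R // (cir v).det = DD n f * a} := by
  have h : ∀ v : Fin n → R, ∃ w : Fin n → R, cir w = aeval (PM R n) f * cir v := by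
    intro v
    obtain ⟨w, hw⟩ := exists_rep (n := n) (f * poly v)
    exact ⟨w, by rw [← aeval_poly, ← aeval_congr n hw, map_mul, aeval_poly]⟩
  choose m hm using h
  refine Nat.card_le_card_of_injective
    (fun v => ⟨m v.1, by rw [hm, Matrix.det_mul, v.2]; rfl⟩) ?_
  intro v w hvw
  have h1 : m v.1 = m w.1 := congrArg Subtype.val hvw
  have h2 : aeval (PM R n) f * cir v.1 = aeval (PM R n) f * cir w.1 := by rw [← hm, ← hm, h1]
  exact Subtype.ext (cir_inj (((Matrix.isUnit_iff_isUnit_det _).2 hf).mul_left_cancel h2))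

lemma fib_le' [Finite R] (f g : R[X]) (hf : IsUnit (DD n f)) (hg : IsUnit (DD n g)) :
    Nat.card {v : Fin n → R // (cir v).det = DD n f} ≤
      Nat.card {v : Fin n → R // (cir v).det = DD n g} := by
  obtain ⟨u, hu⟩ := hf
  obtain ⟨t, ht, h⟩ := (isOfFinOrder_of_finite u).exists_pow_eq_one
  have hp : ∀ t : ℕ, DD n (f ^ t) = DD n f ^ t := by
    intro t; simp [DD]
  have h1 := fib_le (g * f ^ (t - 1)) (by
    rw [DD_mul, hp, ← hu]; exact hg.mul (u.isUnit.pow _)) (DD n f)
  rwa [DD_mul, hp, mul_assoc, ← pow_succ, Nat.sub_add_cancel ht, ← hu, ← Units.val_pow_eq_pow_val,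
    h, Units.val_one, mul_one, hu] at h1

lemma fib_count [Finite R] (f : R[X]) (hf : IsUnit (DD n f)) :
    Nat.card {v : Fin n → R // IsUnit (cir v).det} =
      Nat.card {v : Fin n → R // (cir v).det = DD n f} *
        Nat.card {a : R | IsUnit a ∧ ∃ g : R[X], DD n g = a} := by
  rw [← card_fib (fun v : Fin n → R => (cir v).det) {a : R | IsUnit a ∧ ∃ g : R[X], DD n g = a}]
  · apply Nat.card_congr
    apply Equiv.subtypeEquivRight
    intro v
    exact ⟨fun h => ⟨h, poly v, DD_poly v⟩, fun h => h.1⟩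
  · rintro b ⟨hb, g, rfl⟩
    exact le_antisymm (fib_le' g f hb hf) (fib_le' f g hf hb)

lemma DD_ne_zero_iff {K : Type*} [Field K] (g : K[X]) :
    DD n g ≠ 0 ↔ ∀ P : K[X], Irreducible P → P ∣ X ^ n - 1 → ¬ P ∣ g := by
  have hm : (X ^ n - 1 : K[X]).Monic := by simpa using monic_X_pow_sub_C (1 : K) (NeZero.ne n)
  have hd : (X ^ n - 1 : K[X]).degree = n := by
    simpa using degree_X_pow_sub_C (NeZero.pos n) (1 : K)
  constructor
  · rintro h P hP ⟨a, ha⟩ ⟨b, rfl⟩
    have ha0 : a ≠ 0 := by rintro rfl; exact hm.ne_zero (by rw [ha, mul_zero])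
    have hda : a.degree < n := by
      rw [← hd, ha]
      apply degree_lt_degree
      rw [natDegree_mul hP.ne_zero ha0]
      have := hP.natDegree_pos
      omega
    have h1 : aeval (PM K n) (P * b) * aeval (PM K n) a = aeval (PM K n) (P * b) * 0 := by
      rw [mul_zero, ← map_mul, mul_right_comm, ← ha, map_mul, map_sub, map_pow, aeval_X,
        PM_pow_self, map_one, sub_self, zero_mul]
    have h2 := ((Matrix.isUnit_iff_isUnit_det _).2 (Ne.isUnit h)).mul_left_cancel h1
    rw [← poly_coeff a hda, aeval_poly] at h2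
    have h3 : (fun l : Fin n => a.coeff l) = 0 := cir_inj (by rw [h2]; rfl)
    apply ha0
    rw [← poly_coeff a hda, h3]; simp [poly]
  · intro h
    obtain ⟨a, b, hab⟩ := isCoprime_of_irreducible_dvd (x := (X ^ n - 1 : K[X])) (y := g)
      (fun h => hm.ne_zero h.1) h
    have h1 : DD n (b * g) = DD n 1 := DD_congr n ⟨-a, by linear_combination hab⟩
    rw [DD_mul, DD_one] at h1
    exact right_ne_zero_of_mul_eq_one h1

end

section field
variable {K : Type*} [Field K] [DecidableEq K]

/-- monic irreducible factors -/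
noncomputable def FF (K : Type*) [Field K] [DecidableEq K] (m : ℕ) : Finset K[X] :=
  m.divisors.biUnion fun d => (normalizedFactors (cyclotomic d K)).toFinset

lemma FF_spec {m : ℕ} (hm : 0 < m) {P : K[X]} (hP : P ∈ FF K m) :
    Irreducible P ∧ normalize P = P ∧ P ∣ X ^ m - 1 := by
  obtain ⟨d, hd, h⟩ := Finset.mem_biUnion.1 hP
  rw [Multiset.mem_toFinset] at h
  refine ⟨irreducible_of_normalized_factor P h, normalize_normalized_factor P h, ?_⟩
  rw [← prod_cyclotomic_eq_X_pow_sub_one hm]
  exact (dvd_of_mem_normalizedFactors h).trans (Finset.dvd_prod_of_mem _ hd)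

lemma exists_FF {m : ℕ} (hm : 0 < m) {P : K[X]} (hP : Irreducible P) (h : P ∣ X ^ m - 1) :
    ∃ Q ∈ FF K m, Associated P Q := by
  rw [← prod_cyclotomic_eq_X_pow_sub_one hm] at h
  obtain ⟨d, hd, h2⟩ := hP.prime.exists_mem_finset_dvd h
  obtain ⟨Q, hQ, h3⟩ := exists_mem_normalizedFactors_of_dvd (cyclotomic_ne_zero d K) hP h2
  exact ⟨Q, Finset.mem_biUnion.2 ⟨d, hd, Multiset.mem_toFinset.2 hQ⟩, h3⟩

lemma prod_FF [Fintype K] {p f m : ℕ} [Fact p.Prime] (hK : Fintype.card K = p ^ f) (hm : 0 < m)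
    (hc : Nat.Coprime m p) (hmK : (m : K) ≠ 0) (g : ℕ → ℚ) :
    ∏ P ∈ FF K m, g P.natDegree = ∏ d ∈ m.divisors,
      g (orderOf ((p ^ f : ℕ) : ZMod d)) ^ (d.totient / orderOf ((p ^ f : ℕ) : ZMod d)) := by
  rw [FF, Finset.prod_biUnion]
  · refine Finset.prod_congr rfl fun d hd => ?_
    have hd' : p.Coprime d := (Nat.Coprime.coprime_dvd_left (Nat.dvd_of_mem_divisors hd) hc).symm
    have e1 : orderOf (ZMod.unitOfCoprime _ (hd'.pow_left f)) = orderOf ((p ^ f : ℕ) : ZMod d) := by
      rw [← orderOf_units, ZMod.coe_unitOfCoprime]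
    rw [← e1, ← normalizedFactors_cyclotomic_card hK hd', ← Finset.prod_const]
    refine Finset.prod_congr rfl fun P hP => ?_
    rw [natDegree_of_mem_normalizedFactors_cyclotomic hK hd' (Multiset.mem_toFinset.1 hP)]
  · intro d hd d' hd' hne
    rw [Function.onFun, Finset.disjoint_left]
    intro P h1 h2
    rw [Multiset.mem_toFinset] at h1 h2
    have hs : Squarefree (X ^ m - 1 : K[X]) := (X_pow_sub_one_separable_iff.2 hmK).squarefree
    apply (irreducible_of_normalized_factor P h1).not_isUnit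
    apply hs
    rw [← prod_cyclotomic_eq_X_pow_sub_one hm]
    refine (mul_dvd_mul (dvd_of_mem_normalizedFactors h1)
      (dvd_of_mem_normalizedFactors h2)).trans ?_
    rw [← Finset.prod_pair (f := fun d => cyclotomic d K) hne]
    apply Finset.prod_dvd_prod_of_subset
    intro x hx
    rcases Finset.mem_insert.1 hx with rfl | hx
    · exact hd
    · rw [Finset.mem_singleton.1 hx]; exact hd'

end field

lemma card_ne_zero {F : Type*} [Zero F] [Finite F] :
    (Nat.card {x : F // x ≠ 0} : ℚ) = Nat.card F - 1 := by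
  classical
  have := Fintype.ofFinite F
  rw [Nat.card_eq_fintype_card, Nat.card_eq_fintype_card, Fintype.card_subtype_compl,
    Fintype.card_subtype_eq, Nat.cast_sub (Nat.succ_le_of_lt Fintype.card_pos)]
  simp

open IsLocalRing in
theorem units_count [Finite R] [IsLocalRing R] {n : ℕ} [NeZero n] (p k m : ℕ) [Fact p.Prime]
    [CharP (ResidueField R) p] (hn : n = p ^ k * m) (hc : Nat.Coprime m p) :
    (Nat.card {v : Fin n → R // IsUnit (cir v).det} : ℚ) = (Nat.card R : ℚ) ^ n *
      ∏ d ∈ m.divisors, (1 - 1 / (Nat.card (ResidueField R) : ℚ) ^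
        orderOf ((Nat.card (ResidueField R) : ℕ) : ZMod d)) ^
          (d.totient / orderOf ((Nat.card (ResidueField R) : ℕ) : ZMod d)) := by
  classical
  set K := ResidueField R
  have : Finite K := Finite.of_surjective _ (residue_surjective (R := R))
  have := Fintype.ofFinite K
  obtain ⟨f, -, hf⟩ := FiniteField.card K p
  have hm : 0 < m := by
    rcases Nat.eq_zero_or_pos m with h | h
    · exact absurd (by rw [hn, h, mul_zero]) (NeZero.ne n)
    · exact h
  have hmK : (m : K) ≠ 0 := by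
    rw [Ne, CharP.cast_eq_zero_iff K p]
    exact (Nat.Prime.coprime_iff_not_dvd Fact.out).1 hc.symm
  have hX : (X ^ n - 1 : K[X]) = (X ^ m - 1) ^ p ^ k := by
    rw [sub_pow_char_pow, one_pow, ← pow_mul, mul_comm, hn]
  have hq : Nat.card K = p ^ (f : ℕ) := by rw [Nat.card_eq_fintype_card, hf]
  rw [hq, ← prod_FF hf hm hc hmK (fun j => 1 - 1 / ((p ^ (f : ℕ) : ℕ) : ℚ) ^ j), ← hq]
  let Q : FF K m → Type _ := fun P => K[X] ⧸ Ideal.span {P.1}
  have hfinQ : ∀ P : FF K m, Module.Finite K (Q P) := fun P =>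
    Module.finite_of_finrank_pos (by
      rw [finrank_quotient_span_eq_natDegree]; exact (FF_spec hm P.2).1.natDegree_pos)
  have hcard : ∀ P : FF K m, Nat.card (Q P) = Nat.card K ^ P.1.natDegree := fun P => by
    rw [Module.natCard_eq_pow_finrank (K := K), finrank_quotient_span_eq_natDegree]
  have hfin : ∀ P : FF K m, Finite (Q P) := fun P => Module.finite_of_finite K
  let π : (Fin n → R) →+ (∀ P : FF K m, Q P) :=
    { toFun := fun v P => Ideal.Quotient.mk _ (poly fun l => residue R (v l))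
      map_zero' := by ext P; simp [poly]
      map_add' := by intro v w; ext P; simp [poly, Finset.sum_add_distrib] }
  have hdvd : ∀ P ∈ FF K m, P ∣ X ^ n - 1 := fun P hP => by
    rw [hX]; exact (FF_spec hm hP).2.2.trans (dvd_pow_self _ (pow_ne_zero _ (NeZero.ne p)))
  have hπ : Function.Surjective π := by
    intro t
    obtain ⟨g, hg⟩ := Ideal.pi_quotient_surjective (I := fun P : FF K m => Ideal.span {P.1})
      (by
        intro P P' hne
        obtain ⟨h1, h2, -⟩ := FF_spec hm P.2
        obtain ⟨h3, h4, -⟩ := FF_spec hm P'.2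
        rw [Function.onFun, Ideal.isCoprime_span_singleton_iff, h1.coprime_iff_not_dvd]
        intro h
        exact hne (Subtype.ext ((h1.associated_of_dvd h3 h).eq_of_normalized h2 h4))) t
    obtain ⟨w, hw⟩ := exists_rep (n := n) g
    choose v hv using fun l => residue_surjective (R := R) (w l)
    refine ⟨v, ?_⟩
    ext P
    rw [← hg P]
    change Ideal.Quotient.mk _ (poly fun l => residue R (v l)) = _
    simp only [hv]
    symm
    rw [Ideal.Quotient.eq, Ideal.mem_span_singleton]
    exact (hdvd P P.2).trans hw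
  have hiff : ∀ v : Fin n → R, IsUnit (cir v).det ↔ π v ∈ {t : ∀ P, Q P | ∀ P, t P ≠ 0} := by
    intro v
    rw [← DD_poly, ← residue_ne_zero_iff_isUnit, ← DD_map, DD_ne_zero_iff, poly_map]
    constructor
    · intro h P hP
      exact h P (FF_spec hm P.2).1 (hdvd P P.2)
        (Ideal.mem_span_singleton.1 (Ideal.Quotient.eq_zero_iff_mem.1 hP))
    · intro h P hP hd hd2
      rw [hX] at hd
      obtain ⟨P', hP', ha⟩ := exists_FF hm hP (hP.prime.dvd_of_dvd_pow hd)
      exact h ⟨P', hP'⟩ (Ideal.Quotient.eq_zero_iff_mem.2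
        (Ideal.mem_span_singleton.2 (ha.symm.dvd.trans hd2)))
  have h1 := hom_count π hπ {t : ∀ P, Q P | ∀ P, t P ≠ 0}
  have h0 : Nat.card {t : ∀ P, Q P | ∀ P, t P ≠ 0} = Nat.card (∀ P, {x : Q P // x ≠ 0}) :=
    Nat.card_congr (Equiv.subtypePiEquivPi (p := fun P (x : Q P) => x ≠ 0))
  rw [← Nat.card_congr (Equiv.subtypeEquivRight hiff), Nat.card_fun, Nat.card_pi, h0,
    Nat.card_pi, Nat.card_fin] at h1
  have h2 := congrArg (Nat.cast : ℕ → ℚ) h1
  simp only [Nat.cast_mul, Nat.cast_prod, card_ne_zero, hcard, Nat.cast_pow] at h2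
  have hq0 : (Nat.card K : ℚ) ≠ 0 := by exact_mod_cast Nat.card_pos.ne'
  have h3 : ∏ P : FF K m, (Nat.card K : ℚ) ^ P.1.natDegree ≠ 0 :=
    Finset.prod_ne_zero_iff.2 fun P _ => pow_ne_zero _ hq0
  rw [← Finset.prod_coe_sort, eq_div_of_mul_eq h3 h2, mul_div_assoc, ← Finset.prod_div_distrib]
  congr 1
  refine Finset.prod_congr rfl fun P _ => ?_
  field_simp

end Pool.Agent.H.MP_d6eb29_al
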